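import Pool.Agent.W424.KI.Stm
import Pool.Agent.W808.KZ.T_IND

/-!
Independence of the event of the tip, of the event of the annulus and of the bad events between them.
-/

set_option autoImplicit false

namespace Pool.Agent.W143.KI
open H974 H906.Cyl
open H12S (Dir hbE segD rimE H4 Crs Nr sqE)
open Pool.Agent.H160R2.ML (nm)
open Pool.Agent.H160R2.MU (Cel csq cpos EP inSq)
open Pool.Agent.W801.OU
open Pool.Agent.W808.KZ (vp fp AdmZ OutF LandZ nrp ZCr mrg)
open Pool.Agent.W424.KI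

namespace TIND

open Pool.Agent.H160R2.MU.TIND (Crs_mono' H4_congr hbE_close mem_boxE_of)
open Pool.Agent.W808.KZ.TIND (SE3_congr ZCr_congr)

/-- edges of the middle region -/
def Mid (N L r : ℕ) (s : ℤ) (e : Edg) : Prop :=
  (|e.1| ≤ (L : ℤ) * r + r + s ∧ |e.2.1| ≤ (L : ℤ) * r + r + s) ∧
    ((N : ℤ) * r - r - s ≤ |e.1| ∨ (N : ℤ) * r - r - s ≤ |e.2.1|)

theorem Cp_congr {c N L r : ℕ} {G G' : Set Edg}
    (h : ∀ e : Edg, Mid N L r 2 e → (e ∈ G ↔ e ∈ G')) {e : Edg} (he : Mid N L r 1 e) :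
    e ∈ Cp c G ↔ e ∈ Cp c G' := by
  unfold Cp
  simp only [Set.mem_ofPred_eq]
  obtain ⟨⟨h1, h2⟩, h3⟩ := he
  split_ifs with hc
  · exact h e ⟨⟨by linarith, by linarith⟩, h3.imp (fun h => by linarith) fun h => by linarith⟩
  · have key : edz (e.1 + e.2.1 + 1) (dco e) ∈ G ↔ edz (e.1 + e.2.1 + 1) (dco e) ∈ G' := by
      refine h _ ?_
      obtain ⟨x, y, _ | _⟩ := e
      · have e1 : edz (x + y + 1) (dco (x, y, false)) = (x, y + 1, true) := by
          simp only [edz, dco, Bool.false_eq_true, if_false]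
          rw [if_pos (by omega)]
          simp only [Prod.mk.injEq, and_true]
          omega
        simp only at h1 h2 h3
        simp only [e1]
        have a1 := abs_add_le y 1
        have a2 : |y| ≤ |y + 1| + 1 := by
          have := abs_sub_abs_le_abs_sub y (y + 1)
          have h5 : |y - (y + 1)| = 1 := by
            rw [show y - (y + 1) = -1 by ring]
            norm_num
          linarith
        rw [abs_one] at a1
        exact ⟨⟨by simp only; linarith, by simp only; linarith⟩,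
          h3.imp (fun h => by simp only; linarith) fun h => by simp only; linarith⟩
      · have e1 : edz (x + y + 1) (dco (x, y, true)) = (x + 1, y, false) := by
          simp only [edz, dco, if_true]
          rw [if_neg (by omega)]
          simp only [Prod.mk.injEq, and_true]
          omega
        simp only at h1 h2 h3
        simp only [e1]
        have a1 := abs_add_le x 1
        have a2 : |x| ≤ |x + 1| + 1 := by
          have := abs_sub_abs_le_abs_sub x (x + 1)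
          have h5 : |x - (x + 1)| = 1 := by
            rw [show x - (x + 1) = -1 by ring]
            norm_num
          linarith
        rw [abs_one] at a1
        exact ⟨⟨by simp only; linarith, by simp only; linarith⟩,
          h3.imp (fun h => by simp only; linarith) fun h => by simp only; linarith⟩
    rw [key]

theorem abs_near {a b : ℤ} {D : ℤ} (h : |a - b| ≤ D) : |a| ≤ |b| + D ∧ |b| ≤ |a| + D := by
  have h1 := abs_sub_abs_le_abs_sub a b
  have h2 := abs_sub_abs_le_abs_sub b a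
  rw [abs_sub_comm b a] at h2
  constructor <;> linarith

theorem Bad_mono {c N L r ρ l : ℕ} (hr : 4 ≤ r) (hρ : 4 * ρ < r / 2) {G G' : Set Edg}
    (h : ∀ e : Edg, Mid N L r 2 e → (e ∈ G ↔ e ∈ G')) :
    Bad c N L r ρ l G → Bad c N L r ρ l G' := by
  have hr0 : (0 : ℤ) ≤ r := by positivity
  have hr4 : (4 : ℤ) ≤ r := by exact_mod_cast hr
  rintro (⟨ζ, ⟨h3, h3'⟩, h4, h5⟩ | ⟨d, x0, y0, i, j, ⟨h3, h3'⟩, h4, h5, h6⟩)
  · left
    refine ⟨ζ, ⟨h3, h3'⟩, h4, Crs_mono' hρ ?_ h5⟩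
    intro e he1 he2 he3
    refine (Cp_congr h ?_).1 he3
    have hd : ((r / 2 : ℕ) : ℤ) ≤ r := by
      exact_mod_cast Nat.div_le_self r 2
    obtain ⟨a1, a2⟩ := abs_near he1
    obtain ⟨b1, b2⟩ := abs_near he2
    rw [abs_mul, abs_of_nonneg hr0] at a1 a2 b1 b2
    have c1 : (r : ℤ) * |ζ.1| ≤ L * r := by nlinarith
    have c2 : (r : ℤ) * |ζ.2| ≤ L * r := by nlinarith
    refine ⟨⟨by linarith, by linarith⟩, ?_⟩
    rcases h4 with h4 | h4
    · left
      have : (N : ℤ) * r ≤ r * |ζ.1| := by nlinarith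
      linarith
    · right
      have : (N : ℤ) * r ≤ r * |ζ.2| := by nlinarith
      linarith
  · right
    refine ⟨d, x0, y0, i, j, ⟨h3, h3'⟩, h4, h5, (H4_congr ?_).1 h6⟩
    intro e he
    obtain ⟨he1, he2⟩ := hbE_close he
    refine Cp_congr h ?_
    have hd : (ρ : ℤ) ≤ r - 1 := by
      have : ρ ≤ r - 1 := by omega
      omega
    obtain ⟨a1, a2⟩ := abs_near he1
    obtain ⟨b1, b2⟩ := abs_near he2
    refine ⟨⟨by linarith, by linarith⟩, ?_⟩
    rcases h4 with h4 | h4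
    · left
      linarith
    · right
      linarith

theorem BZ_congr {N L r ρ : ℕ} (hNL : 3 * N ≤ L) (hr : 4 ≤ r) {G G' : Set Edg}
    (h : ∀ e : Edg, Mid N L r 2 e → (e ∈ G ↔ e ∈ G')) :
    BZ N L r ρ G ↔ BZ N L r ρ G' := by
  have hr4 : (4 : ℤ) ≤ r := by exact_mod_cast hr
  have hNL' : (3 : ℤ) * N ≤ L := by exact_mod_cast hNL
  have hN0 : (0 : ℤ) ≤ N := by positivity
  have hNr : (N : ℤ) * r ≤ L * r := by nlinarith
  have key : ∀ K : ℕ, (N : ℤ) * r ≤ K * r → (K : ℤ) * r ≤ L * r →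
      ∀ e ∈ {e : Edg | |e.1 + e.2.1| ≤ (r : ℤ) ∧ |dco e + 2 * K * r| ≤ (r : ℤ)},
      (e ∈ G ↔ e ∈ G') := by
    rintro K hK1 hK2 e ⟨he1, he2⟩
    refine h e ?_
    have hd : e.1 - e.2.1 - 1 ≤ dco e ∧ dco e ≤ e.1 - e.2.1 := by
      obtain ⟨x, y, _ | _⟩ := e
      · simp only [dco]
        simp
      · simp only [dco]
        simp
    obtain ⟨h5, h6⟩ := abs_le.1 he1
    obtain ⟨h7, h8⟩ := abs_le.1 he2
    obtain ⟨h9, h10⟩ := hd
    have hKr : 2 * (K : ℤ) * r = 2 * ((K : ℤ) * r) := by ring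
    rw [hKr] at h7 h8
    set a : ℤ := (K : ℤ) * r with ha
    set A : ℤ := (N : ℤ) * r with hA
    set B : ℤ := (L : ℤ) * r with hB
    have hA0 : 0 ≤ A := by positivity
    unfold Mid
    simp only [← hA, ← hB]
    refine ⟨⟨?_, ?_⟩, Or.inl ?_⟩
    · rw [abs_le]; constructor <;> omega
    · rw [abs_le]; constructor <;> omega
    · rw [le_abs]
      right
      omega
  unfold BZ
  exact or_congr (ZCr_congr (key N le_rfl hNr)) (ZCr_congr (key L hNr le_rfl))

theorem VA_congr {d : ℤ} {R : ℤ} {G G' : Set Edg} (h : ∀ e ∈ AnS d R, (e ∈ G ↔ e ∈ G')) :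
    VA d R G ↔ VA d R G' := by
  unfold VA
  constructor
  · rintro ⟨H, h1, h2⟩
    exact ⟨H, fun e he => (h1 e he).trans (h e he), h2⟩
  · rintro ⟨H, h1, h2⟩
    exact ⟨H, fun e he => (h1 e he).trans (h e he).symm, h2⟩

theorem nm_of_mem {R : ℕ} {e : Edg} (h : e ∈ boxE R) : nm (src e) ≤ R ∧ nm (tgt e) ≤ R := by
  obtain ⟨x, y, _ | _⟩ := e
  · rw [boxE, mem_RE_false] at h
    simp only [nm, src_mk, tgt_false, max_le_iff, abs_le]
    omega
  · rw [boxE, mem_RE_true] at h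
    simp only [nm, src_mk, tgt_true, max_le_iff, abs_le]
    omega

end TIND

open TIND in
open Pool.Agent.H160R2.MU.TIND (mem_boxE_of) in
open Pool.Agent.W808.KZ.TIND (SE3_congr) in
theorem t_IND : S_IND := by
  classical
  intro c N L r ρ l R hc hN hL hr hl h1 h2 hR
  have hLr : 3 * (N * r) ≤ L * r := by
    calc 3 * (N * r) = 3 * N * r := by ring
      _ ≤ L * r := Nat.mul_le_mul_right r hL
  have hNr : 16 * r ≤ N * r := Nat.mul_le_mul_right r hN
  set R1 : ℕ := N * r / 2 with hR1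
  set D : ℕ := 2 * (L * r) with hD
  set E1 : Finset Edg := boxE R1 with hE1
  set E3 : Finset Edg := (boxE R).filter (fun e => e ∈ AnS (D : ℕ) R) with hE3
  set E2 : Finset Edg := boxE R \ (E1 ∪ E3) with hE2
  have s1 : E1 ⊆ boxE R := by
    intro e he
    obtain ⟨h3, h4⟩ := nm_of_mem he
    have h5 : (R1 : ℤ) ≤ R := by
      have : R1 ≤ R := by omega
      exact_mod_cast this
    exact mem_boxE_of (h3.trans h5) (h4.trans h5)
  have s3 : E3 ⊆ boxE R := Finset.filter_subset _ _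
  have s2 : E2 ⊆ boxE R := Finset.sdiff_subset
  have d13 : Disjoint E1 E3 := by
    rw [Finset.disjoint_left]
    intro e he he'
    obtain ⟨h3, h4⟩ := nm_of_mem he
    obtain ⟨⟨h5, h6⟩, h7⟩ := (Finset.mem_filter.1 he').2
    have h8 : (R1 : ℤ) < D := by
      have : R1 < D := by omega
      exact_mod_cast this
    linarith
  -- locality
  have hA : ∀ F, F ⊆ boxE R → (SE3 (R1 : ℕ) (↑F : Set Edg) ↔ SE3 (R1 : ℕ) (↑(F ∩ E1) : Set Edg)) := by
    intro F _
    apply SE3_congr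
    intro e he
    rw [Finset.mem_coe, Finset.mem_coe, Finset.mem_inter]
    exact ⟨fun h => ⟨h, he⟩, fun h => h.1⟩
  have hB : ∀ F, F ⊆ boxE R → (VA (D : ℕ) R (↑F : Set Edg) ↔
      VA (D : ℕ) R (↑(F ∩ E3) : Set Edg)) := by
    intro F _
    apply VA_congr
    intro e he
    rw [Finset.mem_coe, Finset.mem_coe, Finset.mem_inter]
    exact ⟨fun h => ⟨h, Finset.mem_filter.2 ⟨mem_boxE_of he.2.1 he.2.2, he⟩⟩, fun h => h.1⟩
  have hC : ∀ F, F ⊆ boxE R → ((Bad c N L r ρ l (↑F : Set Edg) ∨ BZ N L r ρ (↑F : Set Edg)) ↔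
      (Bad c N L r ρ l (↑(F ∩ E2) : Set Edg) ∨ BZ N L r ρ (↑(F ∩ E2) : Set Edg))) := by
    intro F hF
    have key : ∀ e : Edg, Mid N L r 2 e → (e ∈ (↑F : Set Edg) ↔ e ∈ (↑(F ∩ E2) : Set Edg)) := by
      intro e he
      rw [Finset.mem_coe, Finset.mem_coe, Finset.mem_inter]
      refine ⟨fun h => ⟨h, Finset.mem_sdiff.2 ⟨hF h, ?_⟩⟩, fun h => h.1⟩
      rw [Finset.mem_union, not_or]
      obtain ⟨⟨h3, h4⟩, h5⟩ := he
      have hr4 : (4 : ℤ) ≤ r := by exact_mod_cast hr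
      have hNr' : (16 : ℤ) * r ≤ N * r := by exact_mod_cast hNr
      have hLr' : (3 : ℤ) * (N * r) ≤ L * r := by exact_mod_cast hLr
      constructor
      · intro h6
        obtain ⟨h7, h8⟩ := nm_of_mem h6
        have h9 : (2 : ℤ) * R1 ≤ N * r := by
          have : 2 * R1 ≤ N * r := by omega
          exact_mod_cast this
        have h10 : |e.1| ≤ R1 ∧ |e.2.1| ≤ R1 := max_le_iff.1 h7
        rcases h5 with h5 | h5
        · linarith [h10.1]
        · linarith [h10.2]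
      · intro h6
        obtain ⟨⟨h7, h8⟩, h9⟩ := (Finset.mem_filter.1 h6).2
        have h10 : nm (src e) ≤ (L : ℤ) * r + r + 2 := max_le h3 h4
        have h11 : ((D : ℕ) : ℤ) = 2 * (L * r) := by rw [hD]; push_cast; ring
        linarith
    refine or_congr ⟨Bad_mono hr (by omega) key, Bad_mono hr (by omega) fun e he => (key e he).symm⟩
      (BZ_congr hL hr key)
  have hAB : ∀ F, F ⊆ boxE R → ((SE3 (R1 : ℕ) (↑F : Set Edg) ∧ VA (D : ℕ) R (↑F : Set Edg)) ↔
      (SE3 (R1 : ℕ) (↑(F ∩ (E1 ∪ E3)) : Set Edg) ∧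
        VA (D : ℕ) R (↑(F ∩ (E1 ∪ E3)) : Set Edg))) := by
    intro F hF
    have hF' : F ∩ (E1 ∪ E3) ⊆ boxE R := Finset.inter_subset_left.trans hF
    have q1 : F ∩ (E1 ∪ E3) ∩ E1 = F ∩ E1 := by
      rw [Finset.inter_assoc, Finset.inter_eq_right.2 Finset.subset_union_left]
    have q3 : F ∩ (E1 ∪ E3) ∩ E3 = F ∩ E3 := by
      rw [Finset.inter_assoc, Finset.inter_eq_right.2 Finset.subset_union_right]
    rw [hA F hF, hB F hF, hA _ hF', hB _ hF', q1, q3]
  have e1 : PF R (fun F => (SE3 (R1 : ℕ) (↑F : Set Edg) ∧ VA (D : ℕ) R (↑F : Set Edg)) ∧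
      (Bad c N L r ρ l (↑F : Set Edg) ∨ BZ N L r ρ (↑F : Set Edg))) =
      PF R (fun F => SE3 (R1 : ℕ) (↑F : Set Edg) ∧ VA (D : ℕ) R (↑F : Set Edg)) *
      PF R (fun F => Bad c N L r ρ l (↑F : Set Edg) ∨ BZ N L r ρ (↑F : Set Edg)) :=
    Pr_indep (Finset.union_subset s1 s3) s2 Finset.disjoint_sdiff hAB hC
  have e2 : PF R (fun F => SE3 (R1 : ℕ) (↑F : Set Edg) ∧ VA (D : ℕ) R (↑F : Set Edg)) =
      PF R (fun F => SE3 (R1 : ℕ) (↑F : Set Edg)) * PF R (fun F => VA (D : ℕ) R (↑F : Set Edg)) :=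
    Pr_indep s1 s3 d13 hA hB
  have e3 : PF R (fun F => SE3 (R1 : ℕ) (↑F : Set Edg)) = uR R1 := Pr_local s1 hA
  have e4 : PF R (fun F => VA (D : ℕ) R (↑F : Set Edg)) = vA D R := rfl
  rw [e1, e2, e3, e4]

end Pool.Agent.W143.KI
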